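import Pool.Agent.H79.GT.Targets

/-!
# Board bq_modules, row CH: the chords of a triangle
-/

set_option autoImplicit false

namespace Pool.Agent.H20.BQ

open MeasureTheory Set Filter Topology Pool.Agent.H79.GT Pool.Agent.H44.DU

section triangle

/-- Points of a triangle. -/
theorem mem_hull3 (A B C z : ℂ) : z ∈ convexHull ℝ ({A, B, C} : Set ℂ) ↔
    ∃ β γ : ℝ, 0 ≤ β ∧ 0 ≤ γ ∧ β + γ ≤ 1 ∧
      z = A + (β : ℂ) * (B - A) + (γ : ℂ) * (C - A) := by
  rw [convexHull_insert (Set.insert_nonempty _ _), convexHull_pair, mem_convexJoin]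
  constructor
  · rintro ⟨a, ha, b, hb, hz⟩
    rw [Set.mem_singleton_iff] at ha
    subst ha
    obtain ⟨u, w, hu, hw, huw, rfl⟩ := hb
    obtain ⟨u', w', hu', hw', huw', rfl⟩ := hz
    refine ⟨w' * u, w' * w, mul_nonneg hw' hu, mul_nonneg hw' hw, ?_, ?_⟩
    · rw [← mul_add, huw, mul_one]
      linarith
    · have h1 : u' = 1 - w' := by linarith
      have h2 : u = 1 - w := by linarith
      subst h1 h2
      simp only [Complex.real_smul]
      push_cast
      ring
  · rintro ⟨β, γ, hβ, hγ, hs, rfl⟩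
    refine ⟨A, rfl, ?_⟩
    rcases eq_or_lt_of_le (add_nonneg hβ hγ) with h | h
    · have h1 : β = 0 := by linarith
      have h2 : γ = 0 := by linarith
      subst h1 h2
      refine ⟨B, left_mem_segment ℝ B C, ?_⟩
      simp only [Complex.ofReal_zero, zero_mul, add_zero]
      exact left_mem_segment ℝ A B
    · refine ⟨((β / (β + γ) : ℝ) : ℂ) * B + ((γ / (β + γ) : ℝ) : ℂ) * C, ?_, ?_⟩
      · refine ⟨β / (β + γ), γ / (β + γ), by positivity, by positivity, ?_, ?_⟩
        · rw [← add_div, div_self h.ne']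
        · simp only [Complex.real_smul]
      · refine ⟨1 - (β + γ), β + γ, by linarith, h.le, by ring, ?_⟩
        simp only [Complex.real_smul]
        have h3 : ((β + γ : ℝ) : ℂ) ≠ 0 := by
          exact_mod_cast h.ne'
        push_cast at h3 ⊢
        field_simp
        ring

variable (t : ℝ) (A B C : ℂ)

/-- The heights of the points of the triangle over `x`. -/
def Sl (x : ℝ) : Set ℝ := {y : ℝ | ∃ z ∈ convexHull ℝ ({A, B, C} : Set ℂ), xi t z = x ∧ z.im = y}

theorem ext_xi {z w : ℂ} (h1 : xi t z = xi t w) (h2 : z.im = w.im) : z = w := by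
  apply Complex.ext
  · simp only [xi] at h1
    rw [h2] at h1
    linarith
  · exact h2

theorem sl_iff (hq : 0 < xi t C - xi t A) (x y : ℝ) :
    y ∈ Sl t A B C x ↔ ∃ β : ℝ, 0 ≤ β ∧ β * (xi t B - xi t A) ≤ x - xi t A ∧
      β * (xi t C - xi t B) ≤ xi t C - x ∧
      y = A.im + (x - xi t A) * ((C.im - A.im) / (xi t C - xi t A)) +
        β * (B.im - A.im - (xi t B - xi t A) * ((C.im - A.im) / (xi t C - xi t A))) := by
  have hq' := hq.ne'
  constructor
  · rintro ⟨z, hz, rfl, rfl⟩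
    obtain ⟨β, γ, hβ, hγ, hs, rfl⟩ := (mem_hull3 A B C z).1 hz
    have hx : xi t (A + (β : ℂ) * (B - A) + (γ : ℂ) * (C - A)) =
        xi t A + β * (xi t B - xi t A) + γ * (xi t C - xi t A) := by
      rw [xi_add, xi_add, xi_mul, xi_mul, xi_sub, xi_sub]
    have hy : (A + (β : ℂ) * (B - A) + (γ : ℂ) * (C - A)).im =
        A.im + β * (B.im - A.im) + γ * (C.im - A.im) := by
      simp
    refine ⟨β, hβ, ?_, ?_, ?_⟩
    · rw [hx]
      have := mul_nonneg hγ hq.le
      linarith
    · rw [hx]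
      have : 0 ≤ (1 - β - γ) * (xi t C - xi t A) := mul_nonneg (by linarith) hq.le
      linarith
    · rw [hx, hy]
      field_simp
      ring
  · rintro ⟨β, hβ, h1, h2, rfl⟩
    refine ⟨A + (β : ℂ) * (B - A) +
      (((x - xi t A - β * (xi t B - xi t A)) / (xi t C - xi t A) : ℝ) : ℂ) * (C - A),
      (mem_hull3 A B C _).2 ⟨β, _, hβ, ?_, ?_, rfl⟩, ?_, ?_⟩
    · exact div_nonneg (by linarith) hq.le
    · rw [← le_sub_iff_add_le', div_le_iff₀ hq]
      linarith
    · rw [xi_add, xi_add, xi_mul, xi_mul, xi_sub, xi_sub]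
      field_simp
      ring
    · simp only [Complex.add_im, Complex.im_ofReal_mul, Complex.sub_im]
      field_simp
      ring

/-- The width function. -/
theorem exists_width (h1 : xi t A ≤ xi t B) (h2 : xi t B ≤ xi t C)
    (hq : 0 < xi t C - xi t A) : ∃ a1 b1 a2 b2 : ℝ,
      (∀ x, xi t A ≤ x → x ≤ xi t C → ∀ β : ℝ, (0 ≤ β ∧ β * (xi t B - xi t A) ≤ x - xi t A ∧
        β * (xi t C - xi t B) ≤ xi t C - x) ↔ (0 ≤ β ∧ β ≤ min (a1 * x + b1) (a2 * x + b2))) ∧
      (∀ x, xi t A ≤ x → x ≤ xi t C → 0 ≤ min (a1 * x + b1) (a2 * x + b2)) ∧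
      (∀ x, xi t A < x → x < xi t C → 0 < min (a1 * x + b1) (a2 * x + b2)) := by
  obtain ⟨p, hp⟩ : ∃ p, p = xi t B - xi t A := ⟨_, rfl⟩
  obtain ⟨r, hr⟩ : ∃ r, r = xi t C - xi t B := ⟨_, rfl⟩
  have hp0 : 0 ≤ p := by linarith
  have hr0 : 0 ≤ r := by linarith
  rw [← hp, ← hr]
  have hpr : 0 < p + r := by linarith
  have hc : xi t C = xi t A + p + r := by linarith
  rw [hc]
  obtain ⟨α, hα⟩ : ∃ α, α = xi t A := ⟨_, rfl⟩
  rw [← hα]
  rcases eq_or_lt_of_le hp0 with h | h
  · -- `p = 0`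
    rw [← h] at hpr ⊢
    have hr' : 0 < r := by linarith
    have key : ∀ x, α ≤ x → min ((0 : ℝ) * x + 1) ((-r⁻¹) * x + (α + 0 + r) * r⁻¹) =
        (α + 0 + r - x) * r⁻¹ := by
      intro x hx
      have e : (-r⁻¹) * x + (α + 0 + r) * r⁻¹ = (α + 0 + r - x) * r⁻¹ := by ring
      rw [e, zero_mul, zero_add]
      apply min_eq_right
      rw [← div_eq_mul_inv, div_le_one hr']
      linarith
    refine ⟨0, 1, -r⁻¹, (α + 0 + r) * r⁻¹, ?_, ?_, ?_⟩
    · intro x hx hx' β
      rw [key x hx, ← div_eq_mul_inv, le_div_iff₀ hr']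
      constructor
      · rintro ⟨e1, _, e3⟩
        exact ⟨e1, e3⟩
      · rintro ⟨e1, e3⟩
        exact ⟨e1, by rw [mul_zero]; linarith, e3⟩
    · intro x hx hx'
      rw [key x hx]
      exact mul_nonneg (by linarith) (by positivity)
    · intro x hx hx'
      rw [key x hx.le]
      exact mul_pos (by linarith) (by positivity)
  · rcases eq_or_lt_of_le hr0 with h' | h'
    · rw [← h'] at hpr ⊢
      have key : ∀ x, x ≤ α + p + 0 → min (p⁻¹ * x + (-α) * p⁻¹) ((0 : ℝ) * x + 1) =
          (x - α) * p⁻¹ := by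
        intro x hx
        have e : p⁻¹ * x + (-α) * p⁻¹ = (x - α) * p⁻¹ := by ring
        rw [e, zero_mul, zero_add]
        apply min_eq_left
        rw [← div_eq_mul_inv, div_le_one h]
        linarith
      refine ⟨p⁻¹, (-α) * p⁻¹, 0, 1, ?_, ?_, ?_⟩
      · intro x hx hx' β
        rw [key x hx', ← div_eq_mul_inv, le_div_iff₀ h]
        constructor
        · rintro ⟨e1, e2, _⟩
          exact ⟨e1, e2⟩
        · rintro ⟨e1, e2⟩
          exact ⟨e1, e2, by rw [mul_zero]; linarith⟩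
      · intro x hx hx'
        rw [key x hx']
        exact mul_nonneg (by linarith) (by positivity)
      · intro x hx hx'
        rw [key x hx'.le]
        exact mul_pos (by linarith) (by positivity)
    · have e1 : ∀ x, p⁻¹ * x + (-α) * p⁻¹ = (x - α) / p := by
        intro x
        rw [div_eq_mul_inv]
        ring
      have e2 : ∀ x, (-r⁻¹) * x + (α + p + r) * r⁻¹ = (α + p + r - x) / r := by
        intro x
        rw [div_eq_mul_inv]
        ring
      refine ⟨p⁻¹, (-α) * p⁻¹, -r⁻¹, (α + p + r) * r⁻¹, ?_, ?_, ?_⟩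
      · intro x hx hx' β
        rw [e1, e2, le_min_iff, le_div_iff₀ h, le_div_iff₀ h']
      · intro x hx hx'
        rw [e1, e2]
        exact le_min (div_nonneg (by linarith) h.le) (div_nonneg (by linarith) h'.le)
      · intro x hx hx'
        rw [e1, e2]
        exact lt_min (div_pos (by linarith) h) (div_pos (by linarith) h')

/-- Everything for a triangle whose vertices are ordered by the coordinate. -/
theorem tri_main (h1 : xi t A ≤ xi t B) (h2 : xi t B ≤ xi t C)
    (hdet : (B - A).re * (C - A).im - (B - A).im * (C - A).re ≠ 0) :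
    xi t A < xi t C ∧
    (∀ z, z ∈ convexHull ℝ ({A, B, C} : Set ℂ) ↔ xi t A ≤ xi t z ∧ xi t z ≤ xi t C ∧
      sInf (Sl t A B C (xi t z)) ≤ z.im ∧ z.im ≤ sSup (Sl t A B C (xi t z))) ∧
    (∀ x, xi t A < x → x < xi t C → 0 < sSup (Sl t A B C x) - sInf (Sl t A B C x)) ∧
    (∀ x, 0 ≤ sSup (Sl t A B C x) - sInf (Sl t A B C x)) ∧
    ConcaveOn ℝ (Icc (xi t A) (xi t C)) (fun x => sSup (Sl t A B C x) - sInf (Sl t A B C x)) ∧
    Measurable (fun x => sSup (Sl t A B C x) - sInf (Sl t A B C x)) ∧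
    Measurable (fun x => sInf (Sl t A B C x)) ∧
    ∃ K : NNReal, LipschitzOnWith K (fun x => sSup (Sl t A B C x)) (Icc (xi t A) (xi t C)) ∧
      LipschitzOnWith K (fun x => sInf (Sl t A B C x)) (Icc (xi t A) (xi t C)) := by
  have hdet' : (xi t B - xi t A) * (C.im - A.im) - (B.im - A.im) * (xi t C - xi t A) ≠ 0 := by
    intro h
    apply hdet
    simp only [xi] at h
    simp only [Complex.sub_re, Complex.sub_im]
    linarith
  have hlt : xi t A < xi t C := by
    rcases eq_or_lt_of_le (h1.trans h2) with h | h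
    · exfalso
      apply hdet'
      have e1 : xi t B = xi t A := le_antisymm (h2.trans h.ge) h1
      rw [e1, ← h]
      ring
    · exact h
  have hq : 0 < xi t C - xi t A := by linarith
  obtain ⟨a1, b1, a2, b2, w1, w2, w3⟩ := exists_width t A B C h1 h2 hq
  obtain ⟨m, hm⟩ : ∃ m : ℝ → ℝ, m = fun x => min (a1 * x + b1) (a2 * x + b2) := ⟨_, rfl⟩
  obtain ⟨σ, hσ⟩ : ∃ σ, σ = (C.im - A.im) / (xi t C - xi t A) := ⟨_, rfl⟩
  obtain ⟨H, hH⟩ : ∃ H, H = B.im - A.im - (xi t B - xi t A) * σ := ⟨_, rfl⟩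
  have hH0 : H ≠ 0 := by
    intro h0
    apply hdet'
    have e1 : σ * (xi t C - xi t A) = C.im - A.im := by
      rw [hσ, div_mul_cancel₀ _ hq.ne']
    rw [← e1]
    have e2 : B.im - A.im = (xi t B - xi t A) * σ := by linarith
    rw [e2]
    ring
  have hsl : ∀ x, xi t A ≤ x → x ≤ xi t C → ∀ y, y ∈ Sl t A B C x ↔
      ∃ β : ℝ, 0 ≤ β ∧ β ≤ m x ∧ y = A.im + (x - xi t A) * σ + β * H := by
    intro x hx hx' y
    rw [sl_iff t A B C hq, ← hσ, ← hH]
    constructor
    · rintro ⟨β, e1, e2, e3, e4⟩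
      obtain ⟨f1, f2⟩ := (w1 x hx hx' β).1 ⟨e1, e2, e3⟩
      exact ⟨β, f1, by rw [hm]; exact f2, e4⟩
    · rintro ⟨β, e1, e2, e4⟩
      rw [hm] at e2
      obtain ⟨f1, f2, f3⟩ := (w1 x hx hx' β).2 ⟨e1, e2⟩
      exact ⟨β, f1, f2, f3, e4⟩
  have hm0 : ∀ x, xi t A ≤ x → x ≤ xi t C → 0 ≤ m x := by
    intro x hx hx'
    rw [hm]
    exact w2 x hx hx'
  have hmp : ∀ x, xi t A < x → x < xi t C → 0 < m x := by
    intro x hx hx'
    rw [hm]
    exact w3 x hx hx'
  have hempty : ∀ x, ¬ (xi t A ≤ x ∧ x ≤ xi t C) → Sl t A B C x = ∅ := by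
    intro x hx
    rw [Set.eq_empty_iff_forall_notMem]
    intro y hy
    rw [sl_iff t A B C hq] at hy
    obtain ⟨β, e1, e2, e3, _⟩ := hy
    apply hx
    have f1 := mul_nonneg e1 (sub_nonneg.2 h1)
    have f2 := mul_nonneg e1 (sub_nonneg.2 h2)
    constructor <;> linarith
  have htop : ∀ x, xi t A ≤ x → x ≤ xi t C →
      sSup (Sl t A B C x) = A.im + (x - xi t A) * σ + max H 0 * m x := by
    intro x hx hx'
    apply IsGreatest.csSup_eq
    constructor
    · rw [hsl x hx hx']
      rcases le_total 0 H with h | h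
      · exact ⟨m x, hm0 x hx hx', le_rfl, by rw [max_eq_left h]; ring⟩
      · exact ⟨0, le_rfl, hm0 x hx hx', by rw [max_eq_right h]; ring⟩
    · intro y hy
      rw [hsl x hx hx'] at hy
      obtain ⟨β, e1, e2, rfl⟩ := hy
      have f1 : β * H ≤ β * max H 0 := mul_le_mul_of_nonneg_left (le_max_left _ _) e1
      have f2 : β * max H 0 ≤ m x * max H 0 := mul_le_mul_of_nonneg_right e2 (le_max_right _ _)
      linarith
  have hbot : ∀ x, xi t A ≤ x → x ≤ xi t C →
      sInf (Sl t A B C x) = A.im + (x - xi t A) * σ + min H 0 * m x := by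
    intro x hx hx'
    apply IsLeast.csInf_eq
    constructor
    · rw [hsl x hx hx']
      rcases le_total 0 H with h | h
      · exact ⟨0, le_rfl, hm0 x hx hx', by rw [min_eq_right h]; ring⟩
      · exact ⟨m x, hm0 x hx hx', le_rfl, by rw [min_eq_left h]; ring⟩
    · intro y hy
      rw [hsl x hx hx'] at hy
      obtain ⟨β, e1, e2, rfl⟩ := hy
      have f1 : β * min H 0 ≤ β * H := mul_le_mul_of_nonneg_left (min_le_left _ _) e1
      have f2 : m x * min H 0 ≤ β * min H 0 := mul_le_mul_of_nonpos_right e2 (min_le_right _ _)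
      linarith
  have habs : max H 0 - min H 0 = |H| := by
    rcases le_total 0 H with h | h
    · rw [max_eq_left h, min_eq_right h, abs_of_nonneg h]
      ring
    · rw [max_eq_right h, min_eq_left h, abs_of_nonpos h]
      ring
  have hch : ∀ x, xi t A ≤ x → x ≤ xi t C →
      sSup (Sl t A B C x) - sInf (Sl t A B C x) = |H| * m x := by
    intro x hx hx'
    rw [htop x hx hx', hbot x hx hx', ← habs]
    ring
  have hmc : ConcaveOn ℝ (Icc (xi t A) (xi t C)) m := by
    have haff : ∀ a b : ℝ, ConcaveOn ℝ (Icc (xi t A) (xi t C)) (fun x => a * x + b) := by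
      intro a b
      refine ⟨convex_Icc _ _, ?_⟩
      intro x _ y _ u w _ _ huw
      simp only [smul_eq_mul]
      have e : u * (a * x + b) + w * (a * y + b) = a * (u * x + w * y) + (u + w) * b := by ring
      rw [e, huw, one_mul]
    have := (haff a1 b1).inf (haff a2 b2)
    rw [hm]
    exact this
  have hmcont : Continuous m := by
    rw [hm]
    fun_prop
  have hmlip : ∀ x y, |m x - m y| ≤ max |a1| |a2| * |x - y| := by
    intro x y
    rw [hm]
    refine (abs_min_sub_min_le_max _ _ _ _).trans (max_le ?_ ?_)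
    · have e : a1 * x + b1 - (a1 * y + b1) = a1 * (x - y) := by ring
      rw [e, abs_mul]
      exact mul_le_mul_of_nonneg_right (le_max_left _ _) (abs_nonneg _)
    · have e : a2 * x + b2 - (a2 * y + b2) = a2 * (x - y) := by ring
      rw [e, abs_mul]
      exact mul_le_mul_of_nonneg_right (le_max_right _ _) (abs_nonneg _)
  refine ⟨hlt, ?_, ?_, ?_, ?_, ?_, ?_, ?_⟩
  · intro z
    constructor
    · intro hz
      have hy : z.im ∈ Sl t A B C (xi t z) := ⟨z, hz, rfl, rfl⟩
      have hr : xi t A ≤ xi t z ∧ xi t z ≤ xi t C := by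
        by_contra hcon
        rw [hempty _ hcon] at hy
        exact hy
      refine ⟨hr.1, hr.2, ?_, ?_⟩
      · rw [hbot _ hr.1 hr.2]
        rw [hsl _ hr.1 hr.2] at hy
        obtain ⟨β, e1, e2, e3⟩ := hy
        have f1 : β * min H 0 ≤ β * H := mul_le_mul_of_nonneg_left (min_le_left _ _) e1
        have f2 : m (xi t z) * min H 0 ≤ β * min H 0 :=
          mul_le_mul_of_nonpos_right e2 (min_le_right _ _)
        linarith
      · rw [htop _ hr.1 hr.2]
        rw [hsl _ hr.1 hr.2] at hy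
        obtain ⟨β, e1, e2, e3⟩ := hy
        have f1 : β * H ≤ β * max H 0 := mul_le_mul_of_nonneg_left (le_max_left _ _) e1
        have f2 : β * max H 0 ≤ m (xi t z) * max H 0 :=
          mul_le_mul_of_nonneg_right e2 (le_max_right _ _)
        linarith
    · rintro ⟨g1, g2, g3, g4⟩
      rw [hbot _ g1 g2] at g3
      rw [htop _ g1 g2] at g4
      have hy : z.im ∈ Sl t A B C (xi t z) := by
        rw [hsl _ g1 g2]
        refine ⟨(z.im - (A.im + (xi t z - xi t A) * σ)) / H, ?_, ?_, ?_⟩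
        · rcases lt_or_gt_of_ne hH0 with h | h
          · rw [max_eq_right h.le] at g4
            exact div_nonneg_of_nonpos (by linarith) h.le
          · rw [min_eq_right h.le] at g3
            exact div_nonneg (by linarith) h.le
        · rcases lt_or_gt_of_ne hH0 with h | h
          · rw [min_eq_left h.le] at g3
            rw [div_le_iff_of_neg h]
            linarith
          · rw [max_eq_left h.le] at g4
            rw [div_le_iff₀ h]
            linarith
        · rw [div_mul_cancel₀ _ hH0]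
          ring
      obtain ⟨z', hz', e1, e2⟩ := hy
      rw [ext_xi t e1 e2] at hz'
      exact hz'
  · intro x hx hx'
    rw [hch x hx.le hx'.le]
    exact mul_pos (abs_pos.2 hH0) (hmp x hx hx')
  · intro x
    by_cases hr : xi t A ≤ x ∧ x ≤ xi t C
    · rw [hch x hr.1 hr.2]
      exact mul_nonneg (abs_nonneg _) (hm0 x hr.1 hr.2)
    · rw [hempty x hr, Real.sSup_empty, Real.sInf_empty, sub_zero]
  · have h3 : ConcaveOn ℝ (Icc (xi t A) (xi t C)) (fun x => |H| * m x) := by
      have := hmc.smul (abs_nonneg H)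
      simpa only [smul_eq_mul] using this
    exact h3.congr fun x hx => (hch x hx.1 hx.2).symm
  · have e : (fun x => sSup (Sl t A B C x) - sInf (Sl t A B C x)) =
        (Icc (xi t A) (xi t C)).indicator (fun x => |H| * m x) := by
      funext x
      by_cases hr : x ∈ Icc (xi t A) (xi t C)
      · rw [Set.indicator_of_mem hr, hch x hr.1 hr.2]
      · rw [Set.indicator_of_notMem hr, hempty x hr, Real.sSup_empty, Real.sInf_empty, sub_zero]
    rw [e]
    exact ((hmcont.measurable).const_mul _).indicator measurableSet_Icc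
  · have e : (fun x => sInf (Sl t A B C x)) = (Icc (xi t A) (xi t C)).indicator
        (fun x => A.im + (x - xi t A) * σ + min H 0 * m x) := by
      funext x
      by_cases hr : x ∈ Icc (xi t A) (xi t C)
      · rw [Set.indicator_of_mem hr, hbot x hr.1 hr.2]
      · rw [Set.indicator_of_notMem hr, hempty x hr, Real.sInf_empty]
    rw [e]
    have hc : Continuous (fun x => A.im + (x - xi t A) * σ + min H 0 * m x) := by fun_prop
    exact hc.measurable.indicator measurableSet_Icc
  · have hL : ∀ c : ℝ, |c| ≤ |H| → ∀ x y, |(A.im + (x - xi t A) * σ + c * m x) -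
        (A.im + (y - xi t A) * σ + c * m y)| ≤ (|σ| + |H| * max |a1| |a2|) * |x - y| := by
      intro c hc x y
      have e : (A.im + (x - xi t A) * σ + c * m x) - (A.im + (y - xi t A) * σ + c * m y) =
          σ * (x - y) + c * (m x - m y) := by ring
      rw [e]
      refine (abs_add_le _ _).trans ?_
      rw [abs_mul, abs_mul, add_mul]
      have f1 : |c| * |m x - m y| ≤ |H| * (max |a1| |a2| * |x - y|) :=
        mul_le_mul hc (hmlip x y) (abs_nonneg _) (abs_nonneg _)
      linarith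
    have hK : 0 ≤ |σ| + |H| * max |a1| |a2| := by positivity
    have hmax : |max H 0| ≤ |H| := by
      rcases le_total 0 H with h | h
      · rw [max_eq_left h]
      · rw [max_eq_right h, abs_zero]
        exact abs_nonneg _
    have hmin : |min H 0| ≤ |H| := by
      rcases le_total 0 H with h | h
      · rw [min_eq_right h, abs_zero]
        exact abs_nonneg _
      · rw [min_eq_left h]
    refine ⟨⟨|σ| + |H| * max |a1| |a2|, hK⟩, ?_, ?_⟩
    · refine LipschitzOnWith.of_dist_le_mul fun x hx y hy => ?_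
      rw [Real.dist_eq, Real.dist_eq, htop x hx.1 hx.2, htop y hy.1 hy.2]
      exact hL _ hmax x y
    · refine LipschitzOnWith.of_dist_le_mul fun x hx y hy => ?_
      rw [Real.dist_eq, Real.dist_eq, hbot x hx.1 hx.2, hbot y hy.1 hy.2]
      exact hL _ hmin x y

end triangle

section surface

variable {n : ℕ} (S : Surf n) (t : ℝ)

theorem range_eq (s : Side n) : Set.range (S.v s.1) = ({S.P s, S.Q s, S.O s} : Set ℂ) := by
  obtain ⟨i, k⟩ := s
  ext z
  simp only [Set.mem_range, Surf.P, Surf.Q, Surf.O, Set.mem_insert_iff, Set.mem_singleton_iff]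
  constructor
  · rintro ⟨l, rfl⟩
    fin_cases k <;> fin_cases l <;> simp
  · rintro (rfl | rfl | rfl)
    · exact ⟨k, rfl⟩
    · exact ⟨k + 1, rfl⟩
    · exact ⟨k + 2, rfl⟩

theorem tri_eq (s : Side n) : S.tri s.1 = convexHull ℝ ({S.P s, S.Q s, S.O s} : Set ℂ) := by
  rw [Surf.tri, range_eq]

theorem pt_mem_seg (s : Side n) (x : ℝ) (h : S.InI t s x ∨ S.InJ t s x) :
    xi t (S.pt t s x) = x ∧ S.pt t s x ∈ S.tri s.1 := by
  have hne : xi t (S.P s) - xi t (S.Q s) ≠ 0 := by
    rcases h with ⟨h1, h2⟩ | ⟨h1, h2⟩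
    · exact ne_of_lt (by linarith)
    · exact ne_of_gt (by linarith)
  have hl : 0 ≤ S.lam t s x ∧ S.lam t s x ≤ 1 := by
    rcases h with ⟨h1, h2⟩ | ⟨h1, h2⟩
    · have h3 : S.lam t s x = (x - xi t (S.P s)) / (xi t (S.Q s) - xi t (S.P s)) := by
        rw [Surf.lam, ← neg_div_neg_eq, neg_sub, neg_sub]
      rw [h3]
      constructor
      · exact div_nonneg (by linarith) (by linarith)
      · rw [div_le_one (by linarith)]
        linarith
    · constructor
      · exact div_nonneg (by linarith) (by linarith)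
      · rw [Surf.lam, div_le_one (by linarith)]
        linarith
  refine ⟨?_, ?_⟩
  · rw [Surf.pt, xi_add, xi_mul, xi_sub, Surf.lam]
    field_simp
    ring
  · rw [tri_eq, mem_hull3]
    refine ⟨S.lam t s x, 0, hl.1, le_rfl, by linarith [hl.2], ?_⟩
    rw [Surf.pt, Complex.ofReal_zero, zero_mul, add_zero]

/-- The side line supports the triangle. -/
theorem det_side (s : Side n) (x : ℝ) (h : S.InI t s x ∨ S.InJ t s x) (z : ℂ)
    (hz : z ∈ S.tri s.1) (hx : xi t z = x) :
    0 ≤ (z.im - (S.pt t s x).im) * (xi t (S.Q s) - xi t (S.P s)) := by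
  have hpt := (pt_mem_seg S t s x h).1
  rw [tri_eq, mem_hull3] at hz
  obtain ⟨β, γ, hβ, hγ, hs, rfl⟩ := hz
  obtain ⟨w, hw⟩ : ∃ w, w = S.P s + (β : ℂ) * (S.Q s - S.P s) + (γ : ℂ) * (S.O s - S.P s) :=
    ⟨_, rfl⟩
  rw [← hw] at hx ⊢
  have h1 : 0 ≤ γ * S.ar s := mul_nonneg hγ (S.ar_pos s).le
  have h2 : (S.Q s - S.P s).re * (w - S.P s).im - (S.Q s - S.P s).im * (w - S.P s).re =
      γ * S.ar s := by
    rw [hw, Surf.ar]
    simp only [Complex.add_re, Complex.add_im, Complex.sub_re, Complex.sub_im,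
      Complex.re_ofReal_mul, Complex.im_ofReal_mul]
    ring
  have h3 : (S.Q s - S.P s).re * (S.pt t s x - S.P s).im -
      (S.Q s - S.P s).im * (S.pt t s x - S.P s).re = 0 := by
    rw [Surf.pt]
    simp only [Complex.add_re, Complex.add_im, Complex.sub_re, Complex.sub_im,
      Complex.re_ofReal_mul, Complex.im_ofReal_mul]
    ring
  have h4 : w.re = (S.pt t s x).re + t * (w.im - (S.pt t s x).im) := by
    have h5 : xi t w = xi t (S.pt t s x) := hx.trans hpt.symm
    simp only [xi] at h5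
    linarith
  have h6 : (w.im - (S.pt t s x).im) * (xi t (S.Q s) - xi t (S.P s)) = γ * S.ar s := by
    rw [← h2]
    simp only [Complex.sub_re, Complex.sub_im] at h3 ⊢
    rw [h4]
    simp only [xi]
    linear_combination -h3
  rw [h6]
  exact h1

theorem pf_CH (_h : T_PART) : T_CH := by
  intro n S t i
  have hset : Set.range (S.v i) = ({S.v i 0, S.v i 1, S.v i 2} : Set ℂ) := range_eq S (i, 0)
  have hor := S.orient i
  -- reduction to ordered vertices
  have main : ∀ A B C : ℂ, ({A, B, C} : Set ℂ) = Set.range (S.v i) → xi t A ≤ xi t B →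
      xi t B ≤ xi t C → (B - A).re * (C - A).im - (B - A).im * (C - A).re ≠ 0 →
      S.xl t i = xi t A → S.xr t i = xi t C →
      (S.xl t i < S.xr t i ∧
      (∀ z, z ∈ S.tri i ↔ S.xl t i ≤ xi t z ∧ xi t z ≤ S.xr t i ∧
        bot S t i (xi t z) ≤ z.im ∧ z.im ≤ top S t i (xi t z)) ∧
      (∀ x, S.xl t i < x → x < S.xr t i → 0 < ch S t i x) ∧
      (∀ x, 0 ≤ ch S t i x) ∧
      ConcaveOn ℝ (Icc (S.xl t i) (S.xr t i)) (ch S t i) ∧
      Measurable (ch S t i) ∧ Measurable (bot S t i) ∧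
      ∃ K : NNReal, LipschitzOnWith K (top S t i) (Icc (S.xl t i) (S.xr t i)) ∧
        LipschitzOnWith K (bot S t i) (Icc (S.xl t i) (S.xr t i))) := by
    intro A B C hr h1 h2 hd hl hrr
    have hT : S.tri i = convexHull ℝ ({A, B, C} : Set ℂ) := by rw [Surf.tri, hr]
    have htop : top S t i = fun x => sSup (Sl t A B C x) := by
      funext x
      rw [top, Sl, hT]
    have hbot : bot S t i = fun x => sInf (Sl t A B C x) := by
      funext x
      rw [bot, Sl, hT]
    have hch : ch S t i = fun x => sSup (Sl t A B C x) - sInf (Sl t A B C x) := by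
      funext x
      rw [ch, htop, hbot]
    rw [hl, hrr, hch, htop, hbot, hT]
    exact tri_main t A B C h1 h2 hd
  have hmain : (S.xl t i < S.xr t i ∧
      (∀ z, z ∈ S.tri i ↔ S.xl t i ≤ xi t z ∧ xi t z ≤ S.xr t i ∧
        bot S t i (xi t z) ≤ z.im ∧ z.im ≤ top S t i (xi t z)) ∧
      (∀ x, S.xl t i < x → x < S.xr t i → 0 < ch S t i x) ∧
      (∀ x, 0 ≤ ch S t i x) ∧
      ConcaveOn ℝ (Icc (S.xl t i) (S.xr t i)) (ch S t i) ∧
      Measurable (ch S t i) ∧ Measurable (bot S t i) ∧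
      ∃ K : NNReal, LipschitzOnWith K (top S t i) (Icc (S.xl t i) (S.xr t i)) ∧
        LipschitzOnWith K (bot S t i) (Icc (S.xl t i) (S.xr t i))) := by
    have hs : ∀ A B C : ℂ, ((A = S.v i 0 ∧ B = S.v i 1 ∧ C = S.v i 2) ∨
        (A = S.v i 0 ∧ B = S.v i 2 ∧ C = S.v i 1) ∨ (A = S.v i 1 ∧ B = S.v i 0 ∧ C = S.v i 2) ∨
        (A = S.v i 1 ∧ B = S.v i 2 ∧ C = S.v i 0) ∨ (A = S.v i 2 ∧ B = S.v i 0 ∧ C = S.v i 1) ∨
        (A = S.v i 2 ∧ B = S.v i 1 ∧ C = S.v i 0)) →
        ({A, B, C} : Set ℂ) = Set.range (S.v i) ∧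
        (B - A).re * (C - A).im - (B - A).im * (C - A).re ≠ 0 := by
      intro A B C h
      rw [hset]
      rcases h with ⟨rfl, rfl, rfl⟩ | ⟨rfl, rfl, rfl⟩ | ⟨rfl, rfl, rfl⟩ | ⟨rfl, rfl, rfl⟩ |
        ⟨rfl, rfl, rfl⟩ | ⟨rfl, rfl, rfl⟩ <;>
      · constructor
        · first
            | rfl
            | (ext z
               simp only [Set.mem_insert_iff, Set.mem_singleton_iff]
               tauto)
        · intro h0
          simp only [Complex.sub_re, Complex.sub_im] at h0 hor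
          linarith
    have hxl : S.xl t i = min (xi t (S.v i 0)) (min (xi t (S.v i 1)) (xi t (S.v i 2))) := rfl
    have hxr : S.xr t i = max (xi t (S.v i 0)) (max (xi t (S.v i 1)) (xi t (S.v i 2))) := rfl
    rcases le_total (xi t (S.v i 0)) (xi t (S.v i 1)) with h01 | h01 <;>
    rcases le_total (xi t (S.v i 1)) (xi t (S.v i 2)) with h12 | h12 <;>
    rcases le_total (xi t (S.v i 0)) (xi t (S.v i 2)) with h02 | h02
    · obtain ⟨e1, e2⟩ := hs (S.v i 0) (S.v i 1) (S.v i 2)
        (Or.inl ⟨rfl, rfl, rfl⟩)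
      refine main _ _ _ e1 h01 h12 e2 ?_ ?_
      · rw [hxl, min_eq_left h12, min_eq_left h01]
      · rw [hxr, max_eq_right h12, max_eq_right h02]
    · obtain ⟨e1, e2⟩ := hs (S.v i 0) (S.v i 1) (S.v i 2)
        (Or.inl ⟨rfl, rfl, rfl⟩)
      refine main _ _ _ e1 h01 h12 e2 ?_ ?_
      · rw [hxl, min_eq_left h12, min_eq_left h01]
      · rw [hxr, max_eq_right h12, max_eq_right (h01.trans h12)]
    · obtain ⟨e1, e2⟩ := hs (S.v i 0) (S.v i 2) (S.v i 1)
        (Or.inr (Or.inl ⟨rfl, rfl, rfl⟩))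
      refine main _ _ _ e1 h02 h12 e2 ?_ ?_
      · rw [hxl, min_eq_right h12, min_eq_left h02]
      · rw [hxr, max_eq_left h12, max_eq_right h01]
    · obtain ⟨e1, e2⟩ := hs (S.v i 2) (S.v i 0) (S.v i 1)
        (Or.inr (Or.inr (Or.inr (Or.inr (Or.inl ⟨rfl, rfl, rfl⟩)))))
      refine main _ _ _ e1 h02 h01 e2 ?_ ?_
      · rw [hxl, min_eq_right h12, min_eq_right h02]
      · rw [hxr, max_eq_left h12, max_eq_right h01]
    · obtain ⟨e1, e2⟩ := hs (S.v i 1) (S.v i 0) (S.v i 2)
        (Or.inr (Or.inr (Or.inl ⟨rfl, rfl, rfl⟩)))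
      refine main _ _ _ e1 h01 h02 e2 ?_ ?_
      · rw [hxl, min_eq_left h12, min_eq_right h01]
      · rw [hxr, max_eq_right h12, max_eq_right h02]
    · obtain ⟨e1, e2⟩ := hs (S.v i 1) (S.v i 2) (S.v i 0)
        (Or.inr (Or.inr (Or.inr (Or.inl ⟨rfl, rfl, rfl⟩))))
      refine main _ _ _ e1 h12 h02 e2 ?_ ?_
      · rw [hxl, min_eq_left h12, min_eq_right h01]
      · rw [hxr, max_eq_right h12, max_eq_left h02]
    · obtain ⟨e1, e2⟩ := hs (S.v i 2) (S.v i 1) (S.v i 0)
        (Or.inr (Or.inr (Or.inr (Or.inr (Or.inr ⟨rfl, rfl, rfl⟩)))))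
      refine main _ _ _ e1 h12 h01 e2 ?_ ?_
      · rw [hxl, min_eq_right h12, min_eq_right (h12.trans h01)]
      · rw [hxr, max_eq_left h12, max_eq_left h01]
    · obtain ⟨e1, e2⟩ := hs (S.v i 2) (S.v i 1) (S.v i 0)
        (Or.inr (Or.inr (Or.inr (Or.inr (Or.inr ⟨rfl, rfl, rfl⟩)))))
      refine main _ _ _ e1 h12 h01 e2 ?_ ?_
      · rw [hxl, min_eq_right h12, min_eq_right h02]
      · rw [hxr, max_eq_left h12, max_eq_left h01]
  obtain ⟨m1, m2, m5, m6, m7, m8, m9, m10⟩ := hmain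
  refine ⟨m1, m2, ?_, ?_, m5, m6, m7, m8, m9, m10⟩
  · rintro s rfl x hx
    apply IsLeast.csInf_eq
    constructor
    · exact ⟨S.pt t s x, (pt_mem_seg S t s x (Or.inl hx)).2, (pt_mem_seg S t s x (Or.inl hx)).1,
        rfl⟩
    · rintro y ⟨z, hz, hzx, rfl⟩
      have h1 := det_side S t s x (Or.inl hx) z hz hzx
      have h2 : 0 < xi t (S.Q s) - xi t (S.P s) := by
        have := hx.1.trans hx.2
        linarith
      have h3 := nonneg_of_mul_nonneg_left h1 h2
      linarith
  · rintro s rfl x hx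
    apply IsGreatest.csSup_eq
    constructor
    · exact ⟨S.pt t s x, (pt_mem_seg S t s x (Or.inr hx)).2, (pt_mem_seg S t s x (Or.inr hx)).1,
        rfl⟩
    · rintro y ⟨z, hz, hzx, rfl⟩
      have h1 := det_side S t s x (Or.inr hx) z hz hzx
      have h2 : 0 < xi t (S.P s) - xi t (S.Q s) := by
        have := hx.1.trans hx.2
        linarith
      have h4 : 0 ≤ ((S.pt t s x).im - z.im) * (xi t (S.P s) - xi t (S.Q s)) := by
        have e : ((S.pt t s x).im - z.im) * (xi t (S.P s) - xi t (S.Q s)) =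
          (z.im - (S.pt t s x).im) * (xi t (S.Q s) - xi t (S.P s)) := by ring
        rw [e]
        exact h1
      have h3 := nonneg_of_mul_nonneg_left h4 h2
      linarith

end surface

end Pool.Agent.H20.BQ
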