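import Pool.Agent.H79.GT.Targets

/-!
# Board bq_modules, row EQV: the gluings in the leaf coordinates
-/

set_option autoImplicit false

namespace Pool.Agent.H20.BQ

open MeasureTheory Set Filter Topology Pool.Agent.H79.GT Pool.Agent.H44.DU

/-- Almost everywhere statements can be pulled back by affine maps. -/
theorem ae_affine {a b : ℝ} (ha : a ≠ 0) {p : ℝ → Prop} (h : ∀ᵐ x : ℝ, p x) :
    ∀ᵐ x : ℝ, p (a * x + b) := by
  rw [ae_iff] at h ⊢
  have h1 : {x : ℝ | ¬ p (a * x + b)} = (fun x => a * x) ⁻¹' ((fun x => x + b) ⁻¹' {x | ¬ p x}) :=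
    rfl
  rw [h1, Real.volume_preimage_mul_left ha, measure_preimage_add_right, h, mul_zero]

theorem ae_affine' {a b : ℝ} (ha : a ≠ 0) {p : ℝ → Prop} (h : ∀ᵐ x : ℝ, p x) :
    ∀ᵐ x : ℝ, p (b + a * x) := by
  have h1 := ae_affine (b := b) ha h
  filter_upwards [h1] with x hx
  rw [add_comm]
  exact hx

section

variable {n : ℕ} (S : Surf n) (t : ℝ)

theorem mv_min (s : Side n) (u w : ℝ) : S.mv t s (min u w) = min (S.mv t s u) (S.mv t s w) := by
  rcases le_total u w with h | h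
  · rw [min_eq_left h, min_eq_left ((S.mv_le_iff t s).2 h)]
  · rw [min_eq_right h, min_eq_right ((S.mv_le_iff t s).2 h)]

theorem mv_max (s : Side n) (u w : ℝ) : S.mv t s (max u w) = max (S.mv t s u) (S.mv t s w) := by
  rcases le_total u w with h | h
  · rw [max_eq_right h, max_eq_right ((S.mv_le_iff t s).2 h)]
  · rw [max_eq_left h, max_eq_left ((S.mv_le_iff t s).2 h)]

theorem le_gl (s : Side n) : le S t (S.gl s) = S.mv t s (le S t s) := by
  rw [le, le, S.xi_P_gl, S.xi_Q_gl, mv_min, min_comm]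

theorem ri_gl (s : Side n) : ri S t (S.gl s) = S.mv t s (ri S t s) := by
  rw [ri, ri, S.xi_P_gl, S.xi_Q_gl, mv_max, max_comm]

variable {S t}

theorem int_f {f : Fin n → ℝ → ℝ} (hf : S.LD t f) (i : Fin n) :
    IntegrableOn (f i) (Ioo (S.xl t i) (S.xr t i)) := by
  have h1 : IntegrableOn (fun x => (1 : ℝ) + f i x ^ 2) (Ioo (S.xl t i) (S.xr t i)) := by
    refine Integrable.add ?_ (hf.sq i)
    exact integrable_const _
  refine Integrable.mono' h1 (hf.meas i).aestronglyMeasurable ?_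
  filter_upwards with x
  rw [Real.norm_eq_abs, abs_of_nonneg (hf.nonneg i x)]
  nlinarith [sq_nonneg (f i x - 1), hf.nonneg i x]

/-- Differences of the distribution function. -/
theorem pf_sub {f : Fin n → ℝ → ℝ} (hf : S.LD t f) (i : Fin n) {x y : ℝ} (hx : S.xl t i ≤ x)
    (hxy : x ≤ y) (hy : y ≤ S.xr t i) :
    S.pf t f i y - S.pf t f i x = ∫ z in Ioo x y, f i z := by
  have hI := int_f hf i
  have h1 : Ioo (S.xl t i) (S.xr t i) ∩ Iio y = (Ioo (S.xl t i) (S.xr t i) ∩ Iio x) ∪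
      (Ioo (S.xl t i) (S.xr t i) ∩ Ico x y) := by
    ext z
    simp only [mem_inter_iff, mem_Ioo, mem_Iio, mem_union, mem_Ico]
    constructor
    · rintro ⟨h, hz⟩
      rcases lt_or_ge z x with h' | h'
      · exact Or.inl ⟨h, h'⟩
      · exact Or.inr ⟨h, h', hz⟩
    · rintro (⟨h, hz⟩ | ⟨h, _, hz⟩)
      · exact ⟨h, hz.trans_le hxy⟩
      · exact ⟨h, hz⟩
  have hd : Disjoint (Ioo (S.xl t i) (S.xr t i) ∩ Iio x) (Ioo (S.xl t i) (S.xr t i) ∩ Ico x y) := by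
    rw [Set.disjoint_left]
    rintro z ⟨_, h2⟩ ⟨_, h3, _⟩
    exact absurd h2 (not_lt.2 h3)
  have h2 : (Ioo (S.xl t i) (S.xr t i) ∩ Ico x y : Set ℝ) =ᵐ[volume] Ioo x y := by
    have h3 : ∀ᵐ z : ℝ, z ≠ x := by
      rw [ae_iff]
      have : {a : ℝ | ¬ a ≠ x} = {x} := by
        ext a
        simp
      rw [this]
      exact Real.volume_singleton
    refine Filter.eventuallyEq_set.2 ?_
    filter_upwards [h3] with z hz
    constructor
    · rintro ⟨_, h4, h5⟩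
      exact ⟨lt_of_le_of_ne h4 (Ne.symm hz), h5⟩
    · rintro ⟨h4, h5⟩
      exact ⟨⟨hx.trans_lt h4, h5.trans_le hy⟩, h4.le, h5⟩
  rw [Surf.pf, Surf.pf, h1, setIntegral_union hd (measurableSet_Ioo.inter measurableSet_Ico)
    (hI.mono_set inter_subset_left) (hI.mono_set inter_subset_left), add_sub_cancel_left,
    setIntegral_congr_set h2]

/-- The gluing of the density, for all sides. -/
theorem glue_all (hp : T_PART) {f : Fin n → ℝ → ℝ} (hf : S.LD t f) (s : Side n) :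
    ∀ᵐ x : ℝ, le S t s < x → x < ri S t s →
      f (S.gl s).1 (S.mv t s x) = f s.1 x / S.a s := by
  have ha := (S.a_pos s).ne'
  have h1 := hf.glue s
  have h2 := ae_affine (b := xi t (S.b s)) ha (hf.glue (S.gl s))
  filter_upwards [h1, h2] with x hx1 hx2 hl hr
  rcases ((hp n S t).2.1 s x).2 ⟨hl, hr⟩ with h | h
  · have h3 : S.InJ t (S.gl s) (S.a s * x + xi t (S.b s)) := (S.inJ_gl_iff t s x).2 h
    have h4 := hx2 h3
    rw [S.gl_gl] at h4
    have h5 : S.mv t (S.gl s) (S.a s * x + xi t (S.b s)) = x := S.mv_gl t s x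
    rw [h5, S.a_gl, div_inv_eq_mul] at h4
    rw [h4, mul_div_cancel_right₀ _ ha]
    rfl
  · exact hx1 h

theorem dns_side (hp : T_PART) {f : Fin n → ℝ → ℝ} (hf : S.LD t f) (hi : S.SInc t (S.pf t f))
    (s : Side n) (h : le S t s < ri S t s) :
    Dns (f s.1) (S.pf t f s.1) (le S t s) (ri S t s) := by
  obtain ⟨h1, _, h3⟩ := (hp n S t).2.2.1 s
  refine ⟨h, hf.meas _, hf.nonneg _, ?_, ?_, ?_⟩
  · exact (hf.sq s.1).mono_set (Ioo_subset_Ioo h1 h3)
  · intro x y hx hxy hy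
    exact pf_sub hf s.1 (h1.trans hx) hxy (hy.trans h3)
  · intro x y hx hxy hy
    exact hi s.1 x y (h1.trans hx) hxy (hy.trans h3)

/-- The masses are preserved by the gluings. -/
theorem mass_glue (hp : T_PART) {f : Fin n → ℝ → ℝ} (hf : S.LD t f) (s : Side n) {x y : ℝ}
    (hx : le S t s ≤ x) (hxy : x ≤ y) (hy : y ≤ ri S t s) :
    S.pf t f (S.gl s).1 (S.mv t s y) - S.pf t f (S.gl s).1 (S.mv t s x) =
      S.pf t f s.1 y - S.pf t f s.1 x := by
  have ha := (S.a_pos s).ne'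
  obtain ⟨h1, _, h3⟩ := (hp n S t).2.2.1 s
  obtain ⟨g1, _, g3⟩ := (hp n S t).2.2.1 (S.gl s)
  rw [le_gl] at g1
  rw [ri_gl] at g3
  rw [pf_sub hf s.1 (h1.trans hx) hxy (hy.trans h3),
    pf_sub hf (S.gl s).1 (g1.trans ((S.mv_le_iff t s).2 hx)) ((S.mv_le_iff t s).2 hxy)
      (((S.mv_le_iff t s).2 hy).trans g3)]
  have e1 : ∫ z in Ioo x y, f s.1 z = ∫ z in Ioo x y, S.a s * f (S.gl s).1 (S.mv t s z) := by
    apply setIntegral_congr_ae measurableSet_Ioo
    filter_upwards [glue_all hp hf s] with z hz hz'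
    rw [hz (hx.trans_lt hz'.1) (hz'.2.trans_le hy), mul_div_cancel₀ _ ha]
  rw [e1, integral_const_mul, ← integral_Ioc_eq_integral_Ioo, ← integral_Ioc_eq_integral_Ioo,
    ← intervalIntegral.integral_of_le hxy,
    ← intervalIntegral.integral_of_le ((S.mv_le_iff t s).2 hxy)]
  have e2 := intervalIntegral.integral_comp_mul_add (a := x) (b := y) (f (S.gl s).1) ha
    (xi t (S.b s))
  have e3 : (∫ z in x..y, f (S.gl s).1 (S.mv t s z)) =
      (S.a s)⁻¹ • ∫ z in S.mv t s x..S.mv t s y, f (S.gl s).1 z := e2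
  rw [e3, smul_eq_mul, ← mul_assoc, mul_inv_cancel₀ ha, one_mul]

theorem mv_add' (s : Side n) (x ρ : ℝ) : S.mv t s x + S.a s * ρ = S.mv t s (x + ρ) := by
  simp only [Surf.mv]
  ring

theorem mv_sub' (s : Side n) (x ρ : ℝ) : S.mv t s x - S.a s * ρ = S.mv t s (x - ρ) := by
  simp only [Surf.mv]
  ring

/-- The radii. -/
theorem Rd_glue (hp : T_PART) {f : Fin n → ℝ → ℝ} (hf : S.LD t f) (s : Side n) (r x : ℝ) :
    Rd S t f r (S.gl s) (S.mv t s x) = S.a s * Rd S t f r s x := by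
  have ha := S.a_pos s
  have key : ∀ ρ : ℝ, (0 ≤ S.a s * ρ ∧ le S t (S.gl s) ≤ S.mv t s x - S.a s * ρ ∧
      S.mv t s x + S.a s * ρ ≤ ri S t (S.gl s) ∧
      S.pf t f (S.gl s).1 (S.mv t s x + S.a s * ρ) -
        S.pf t f (S.gl s).1 (S.mv t s x - S.a s * ρ) ≤ r) ↔
      (0 ≤ ρ ∧ le S t s ≤ x - ρ ∧ x + ρ ≤ ri S t s ∧
        S.pf t f s.1 (x + ρ) - S.pf t f s.1 (x - ρ) ≤ r) := by
    intro ρ
    rw [mv_add', mv_sub', le_gl, ri_gl, S.mv_le_iff, S.mv_le_iff]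
    constructor
    · rintro ⟨h1, h2, h3, h4⟩
      have h0 : 0 ≤ ρ := nonneg_of_mul_nonneg_right h1 ha
      rw [mass_glue hp hf s h2 (by linarith) h3] at h4
      exact ⟨h0, h2, h3, h4⟩
    · rintro ⟨h0, h2, h3, h4⟩
      rw [← mass_glue hp hf s h2 (by linarith) h3] at h4
      exact ⟨mul_nonneg ha.le h0, h2, h3, h4⟩
  have hset : {ρ : ℝ | 0 ≤ ρ ∧ le S t (S.gl s) ≤ S.mv t s x - ρ ∧
      S.mv t s x + ρ ≤ ri S t (S.gl s) ∧
      S.pf t f (S.gl s).1 (S.mv t s x + ρ) - S.pf t f (S.gl s).1 (S.mv t s x - ρ) ≤ r} =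
      (fun ρ => S.a s * ρ) '' {ρ : ℝ | 0 ≤ ρ ∧ le S t s ≤ x - ρ ∧ x + ρ ≤ ri S t s ∧
        S.pf t f s.1 (x + ρ) - S.pf t f s.1 (x - ρ) ≤ r} := by
    ext ρ
    constructor
    · intro h
      have e : S.a s * (ρ / S.a s) = ρ := mul_div_cancel₀ _ ha.ne'
      refine ⟨ρ / S.a s, (key _).1 ?_, e⟩
      rw [e]
      exact h
    · rintro ⟨ρ', h, rfl⟩
      exact (key ρ').2 h
  rw [Rd, Rd, rad, rad, hset]
  have h5 := Real.sSup_smul_of_nonneg ha.le {ρ : ℝ | 0 ≤ ρ ∧ le S t s ≤ x - ρ ∧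
    x + ρ ≤ ri S t s ∧ S.pf t f s.1 (x + ρ) - S.pf t f s.1 (x - ρ) ≤ r}
  rw [smul_eq_mul] at h5
  rw [← h5]
  rfl

end

theorem pf_EQV (h : T_RAD) (hp : T_PART) : T_EQV := by
  intro n S t f hf hi
  refine ⟨fun s hs => dns_side hp hf hi s hs, fun s => ⟨le_gl S t s, ri_gl S t s⟩,
    fun s x y hx hxy hy => mass_glue hp hf s hx hxy hy, fun s r x _ _ => Rd_glue hp hf s r x,
    ?_, ?_⟩
  · intro s r x c φ φ' hr hx hx' hφ
    obtain ⟨r1, r2, -, -⟩ := h _ _ _ _ (dns_side hp hf hi s (hx.trans hx')) r hr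
    obtain ⟨-, q1, q2, -⟩ := r1 x hx.le hx'.le
    have hR := r2 x hx hx'
    rw [av, av, Rd_glue hp hf s r x]
    change _ = c * ∫ v in Ioo (-1 : ℝ) 1,
      ((1 - |v| : ℝ) : ℂ) * φ (x + rad (S.pf t f s.1) (le S t s) (ri S t s) r x / 2 * v)
    change ∫ v in Ioo (-1 : ℝ) 1, ((1 - |v| : ℝ) : ℂ) *
      φ' (S.mv t s x + S.a s * rad (S.pf t f s.1) (le S t s) (ri S t s) r x / 2 * v) = _
    obtain ⟨R, hRd⟩ : ∃ R, R = rad (S.pf t f s.1) (le S t s) (ri S t s) r x := ⟨_, rfl⟩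
    rw [← hRd] at hR q1 q2 ⊢
    rw [← integral_const_mul]
    apply setIntegral_congr_ae measurableSet_Ioo
    have h3 := ae_affine' (b := x) (a := R / 2) (by linarith : R / 2 ≠ 0) hφ
    filter_upwards [h3] with v hv hv'
    have e1 : S.mv t s x + S.a s * R / 2 * v = S.mv t s (x + R / 2 * v) := by
      simp only [Surf.mv]
      ring
    have e2 : le S t s < x + R / 2 * v := by nlinarith [hv'.1]
    have e3 : x + R / 2 * v < ri S t s := by nlinarith [hv'.2]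
    rw [e1, hv e2 e3]
    ring
  · intro s τ
    filter_upwards [glue_all hp hf s] with x hx h1 h2
    have ha := S.a_pos s
    have h3 := hx h1 h2
    rw [uu, uu, h3]
    by_cases h4 : 0 < f s.1 x
    · rw [if_pos h4, if_pos (div_pos h4 ha), Surf.zt, ← Complex.exp_add,
        Real.log_div h4.ne' ha.ne']
      congr 1
      push_cast
      ring
    · rw [if_neg h4, if_neg, mul_zero]
      intro h5
      exact h4 ((div_pos_iff_of_pos_right ha).1 h5)

end Pool.Agent.H20.BQ
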